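import Pool.Agent.UBV2.Cyc
import Pool.Agent.UBC.LocCyc

/-!
# Cycles whose length is a power of two, odd degree at least seven
-/

set_option autoImplicit false

universe u

namespace UBV2

open UBC Height NumberField IsDedekindDomain Polynomial

/-- The length of a cycle `t ↦ a (ℓ * t)` whose length is a power of two is bounded if the degree
`d ≥ 7` is odd. -/
theorem cyc_two (K : Type u) [Field K] [NumberField K] {d : ℕ} (hd : 7 ≤ d) (hodd : Odd d)
    (S : Set (HeightOneSpectrum (𝓞 K))) (hS : S.Finite)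
    (hdS : ∀ v : HeightOneSpectrum (𝓞 K), v ∉ S → v.valuation K (d : K) = 1) :
    ∃ B : ℕ, ∀ (H : ℕ → K[X]) (c : ℕ → K),
      (∀ v : HeightOneSpectrum (𝓞 K), v ∉ S → LocPure (v.valuation K) d H c) →
      ∀ ℓ : ℕ, 0 < ℓ → (∀ i, H (i + ℓ) = H i) → (∀ i, c (i + ℓ) = c i) →
      ∀ a : ℕ → K, (∀ i, a (i + 1) = fam 1 (H i) (c i) (a i)) →
      ∀ s : ℕ, (∀ i, a (i + ℓ * 2 ^ s) = a i) →
      (∀ i j : ℕ, i < 2 ^ s → j < 2 ^ s → a (ℓ * i) = a (ℓ * j) → i = j) → 2 ^ s ≤ B := by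
  obtain ⟨m, hm⟩ := hodd
  obtain ⟨B, hB⟩ := cyc_abs K (n := d - 1) (by omega) ⟨m, by omega⟩ S hS
  refine ⟨B, fun H c hp ℓ hℓ hH hc a ha s hak hinj => ?_⟩
  refine hB s (fun t => a (ℓ * t)) hinj fun v hv i j i' j' hij hij' _ _ hg h1 h2 => ?_
  exact cyc_val (v.valuation K) (by omega) (hdS v hv) (hp v hv) hℓ hH hc ha (by positivity) hak hij
    hij' hg h1 h2

end UBV2
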