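import Pool.Agent.UBC.LocDom

/-!
# Local analysis of the differences in a cycle of `F(z) / δ ^ n`, `F` separable modulo `v | δ`
-/

set_option autoImplicit false

namespace UBV2

open WithZero Polynomial UBC

/-- integral coefficients, unit leading coefficient, degree at least two -/
def Nice {K : Type*} [Field K] (v : Valuation K ℤᵐ⁰) (F : K[X]) : Prop :=
  2 ≤ F.natDegree ∧ (∀ j, v (F.coeff j) ≤ 1) ∧ v F.leadingCoeff = 1

/-- no multiple root in the residue field -/
def Simple {K : Type*} [Field K] (v : Valuation K ℤᵐ⁰) (F : K[X]) : Prop :=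
  ∀ x : K, v x ≤ 1 → v (F.eval x) < 1 → v (F.derivative.eval x) = 1

namespace LocSepAux

section generic

variable {K : Type*} [Field K] (v : Valuation K ℤᵐ⁰) {x : ℕ → K} {k : ℕ} (hk : 0 < k)
  (hper : ∀ i, x (i + k) = x i) (hsh : ∀ m n t, v (x (m + t) - x (n + t)) = v (x m - x n))

include hper in
lemma per_mul (t i : ℕ) : x (i + k * t) = x i := by
  induction t with
  | zero => simp
  | succ t ih =>
    have e : i + k * (t + 1) = (i + k * t) + k := by ring
    rw [e, hper, ih]

include hper in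
lemma per_mod (t : ℕ) : x (t % k) = x t := by
  have h1 := per_mul hper (t / k) (t % k)
  rw [← h1]
  congr 1
  exact Nat.mod_add_div t k

include hsh in
lemma gen_mul (j i : ℕ) : v (x (j * i) - x 0) ≤ v (x j - x 0) := by
  induction i with
  | zero => simp
  | succ i ih =>
    have h1 := hsh j 0 (j * i)
    have e1 : j + j * i = j * (i + 1) := by ring
    rw [e1, Nat.zero_add] at h1
    have e2 : x (j * (i + 1)) - x 0 = (x (j * (i + 1)) - x (j * i)) + (x (j * i) - x 0) := by ring
    rw [e2]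
    exact (Valuation.map_add v _ _).trans (max_le h1.le ih)

include hk hper hsh

/-- only the greatest common divisor matters -/
lemma gen_gcd (j : ℕ) : v (x j - x 0) = v (x (Nat.gcd j k) - x 0) := by
  refine le_antisymm ?_ ?_
  · obtain ⟨q, hq⟩ := Nat.gcd_dvd_left j k
    have h1 := gen_mul v hsh (Nat.gcd j k) q
    rwa [← hq] at h1
  · obtain ⟨i, hi⟩ : ∃ i : ℕ, (j * i) % k = (Nat.gcd j k) % k := by
      rcases (Nat.le_of_dvd hk (Nat.gcd_dvd_right j k)).lt_or_eq with h | h
      · obtain ⟨i, -, hi⟩ := Nat.exists_mul_mod_eq_gcd h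
        exact ⟨i, by rw [hi, Nat.mod_eq_of_lt h]⟩
      · refine ⟨0, ?_⟩
        rw [h, Nat.mod_self, mul_zero, Nat.zero_mod]
    have h1 := gen_mul v hsh j i
    rw [← per_mod hper (j * i), hi, per_mod hper] at h1
    exact h1

lemma gen_key {m n : ℕ} (hmn : m ≤ n) :
    v (x m - x n) = v (x (Nat.gcd (n - m) k) - x 0) := by
  have h1 := hsh (n - m) 0 m
  rw [Nat.sub_add_cancel hmn, Nat.zero_add] at h1
  rw [Valuation.map_sub_swap, h1]
  exact gen_gcd v hk hper hsh (n - m)

end generic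

section local_

variable {K : Type*} [Field K] (v : Valuation K ℤᵐ⁰)

/-- two close points -/
lemma taylor {F : K[X]} (hint : ∀ j, v (F.coeff j) ≤ 1) {x y : K} (hx : v x ≤ 1) (hy : v y ≤ 1) :
    ∃ k : K, v k ≤ 1 ∧
      F.eval x - F.eval y = (x - y) * (F.derivative.eval y + k * (x - y)) := by
  have hl : F ∈ lifts (algebraMap v.integer K) := by
    rw [lifts_iff_coeff_lifts]
    intro j
    exact ⟨⟨F.coeff j, (Valuation.mem_integer_iff v _).2 (hint j)⟩, rfl⟩
  obtain ⟨G, rfl⟩ := (mem_lifts _).1 hl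
  obtain ⟨X', hX'⟩ : ∃ X' : v.integer, algebraMap v.integer K X' = x :=
    ⟨⟨x, (Valuation.mem_integer_iff v _).2 hx⟩, rfl⟩
  obtain ⟨Y', hY'⟩ : ∃ Y' : v.integer, algebraMap v.integer K Y' = y :=
    ⟨⟨y, (Valuation.mem_integer_iff v _).2 hy⟩, rfl⟩
  obtain ⟨k, hk⟩ := G.binomExpansion Y' (X' - Y')
  refine ⟨algebraMap v.integer K k, (Valuation.mem_integer_iff v _).1 k.2, ?_⟩
  have h1 := congrArg (algebraMap v.integer K) hk
  rw [add_sub_cancel] at h1
  rw [← hX', ← hY', derivative_map, eval_map_algebraMap, eval_map_algebraMap, eval_map_algebraMap,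
    aeval_algebraMap_apply_eq_algebraMap_eval, aeval_algebraMap_apply_eq_algebraMap_eval,
    aeval_algebraMap_apply_eq_algebraMap_eval, h1]
  simp only [map_add, map_mul, map_sub, map_pow]
  ring

/-- integral maps do not increase distances -/
lemma lip {F : K[X]} (hint : ∀ j, v (F.coeff j) ≤ 1) {x y : K} (hx : v x ≤ 1) (hy : v y ≤ 1) :
    v (F.eval x - F.eval y) ≤ v (x - y) := by
  have hl : F ∈ lifts (algebraMap v.integer K) := by
    rw [lifts_iff_coeff_lifts]
    intro j
    exact ⟨⟨F.coeff j, (Valuation.mem_integer_iff v _).2 (hint j)⟩, rfl⟩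
  obtain ⟨G, rfl⟩ := (mem_lifts _).1 hl
  obtain ⟨X', hX'⟩ : ∃ X' : v.integer, algebraMap v.integer K X' = x :=
    ⟨⟨x, (Valuation.mem_integer_iff v _).2 hx⟩, rfl⟩
  obtain ⟨Y', hY'⟩ : ∃ Y' : v.integer, algebraMap v.integer K Y' = y :=
    ⟨⟨y, (Valuation.mem_integer_iff v _).2 hy⟩, rfl⟩
  obtain ⟨k, hk⟩ := sub_dvd_eval_sub X' Y' G
  have h1 := congrArg (algebraMap v.integer K) hk
  rw [← hX', ← hY', eval_map_algebraMap, eval_map_algebraMap,
    aeval_algebraMap_apply_eq_algebraMap_eval, aeval_algebraMap_apply_eq_algebraMap_eval,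
    ← map_sub, h1, map_mul, map_mul, map_sub]
  calc _ ≤ v (algebraMap v.integer K X' - algebraMap v.integer K Y') * 1 :=
        mul_le_mul_right ((Valuation.mem_integer_iff v _).1 k.2) _
    _ = _ := mul_one _

/-- values at non-integral points -/
lemma big {F : K[X]} (h : Nice v F) {x : K} (hx : 1 < v x) : v (F.eval x) = v x ^ F.natDegree :=
  LocDomAux.eval_big' v h.2.2 rfl h.2.1 hx

variable {n : ℕ} {δ : K} (hδ0 : δ ≠ 0) (hδ : v δ ≤ 1) {F : ℕ → K[X]} (hF : ∀ i, Nice v (F i))
  {a b : ℕ → K} (ha : ∀ i, δ ^ n * a (i + 1) = (F i).eval (a i))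
  (hb : ∀ i, δ ^ n * b (i + 1) = (F i).eval (b i))
  {L : ℕ} (hL : 0 < L) (haL : ∀ i, a (i + L) = a i) (hbL : ∀ i, b (i + L) = b i)

include hδ hF ha hL haL in
lemma int_of_per (i : ℕ) : v (a i) ≤ 1 := by
  by_contra hcon
  push Not at hcon
  have h1 : ∀ t : ℕ, 1 < v (a (i + t)) ∧ v (a i) ≤ v (a (i + t)) ∧
      v (a (i + t)) < v (a (i + t + 1)) := by
    have step : ∀ j, 1 < v (a j) → v (a j) < v (a (j + 1)) := by
      intro j hj
      have h2 := congrArg v (ha j)
      rw [map_mul, map_pow, big v (hF j) hj] at h2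
      have h3 : v (a j) ^ 2 ≤ v (a j) ^ (F j).natDegree := pow_le_pow_right₀ hj.le (hF j).1
      have h4 : v δ ^ n * v (a (j + 1)) ≤ v (a (j + 1)) := by
        calc v δ ^ n * v (a (j + 1)) ≤ 1 * v (a (j + 1)) :=
              mul_le_mul_left (pow_le_one₀ zero_le hδ) _
          _ = _ := one_mul _
      have h5 : v (a j) < v (a j) ^ 2 := by
        rw [pow_two]
        calc v (a j) = v (a j) * 1 := (mul_one _).symm
          _ < v (a j) * v (a j) := mul_lt_mul_of_pos_left hj (zero_lt_one.trans hj)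
      exact h5.trans_le (h3.trans (h2 ▸ h4))
    intro t
    induction t with
    | zero => exact ⟨hcon, le_refl _, step _ hcon⟩
    | succ t ih =>
      obtain ⟨h1, h2, h3⟩ := ih
      have h4 : 1 < v (a (i + (t + 1))) := h1.trans h3
      exact ⟨h4, h2.trans h3.le, step _ h4⟩
  obtain ⟨t, rfl⟩ : ∃ t, L = t + 1 := ⟨L - 1, by omega⟩
  obtain ⟨-, h2, h3⟩ := h1 t
  have h4 : a (i + t + 1) = a i := haL i
  rw [h4] at h3
  exact absurd (h2.trans_lt h3) (lt_irrefl _)

include hδ hF ha hb hL haL hbL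

/-- good places -/
lemma good_const (hδ1 : v δ = 1) (i : ℕ) : v (a i - b i) = v (a 0 - b 0) := by
  have hva := int_of_per v hδ hF ha hL haL
  have hvb := int_of_per v hδ hF hb hL hbL
  have hD : ∀ i, v (a (i + 1) - b (i + 1)) ≤ v (a i - b i) := by
    intro i
    have h1 := lip v (hF i).2.1 (hva i) (hvb i)
    rw [← ha, ← hb, ← mul_sub, map_mul, map_pow, hδ1, one_pow, one_mul] at h1
    exact h1
  have hanti : Antitone fun i => v (a i - b i) := antitone_nat_of_succ_le hD
  have h1 : ∀ k i, v (a (i + L * k) - b (i + L * k)) = v (a i - b i) := by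
    intro k i
    rw [per_mul haL, per_mul hbL]
  refine le_antisymm (hanti (Nat.zero_le i)) ?_
  have h2 := hanti (a := i) (b := 0 + L * i) (by nlinarith)
  simp only at h2
  rwa [h1] at h2

include hδ0 in
/-- bad places -/
lemma bad_reach (hδ1 : v δ < 1) (hn : 0 < n) (hs : ∀ i, Simple v (F i)) (hab : a 0 ≠ b 0) :
    ∃ e : ℕ, v (a 0 - b 0) = (v δ ^ n) ^ e := by
  have hva := int_of_per v hδ hF ha hL haL
  have hvb := int_of_per v hδ hF hb hL hbL
  have hvδ0 : v δ ≠ 0 := (Valuation.ne_zero_iff v).2 hδ0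
  have hε1 : v δ ^ n < 1 := pow_lt_one₀ zero_le hδ1 hn.ne'
  have hε0 : v δ ^ n ≠ 0 := pow_ne_zero _ hvδ0
  have hDle : ∀ i, v (a i - b i) ≤ 1 := fun i =>
    (Valuation.map_sub v _ _).trans (max_le (hva i) (hvb i))
  have hstep : ∀ i, v (a i - b i) < 1 →
      v δ ^ n * v (a (i + 1) - b (i + 1)) = v (a i - b i) := by
    intro i hi
    obtain ⟨k, hk1, hk2⟩ := taylor v (hF i).2.1 (hva i) (hvb i)
    have h1 : v ((F i).eval (b i)) < 1 := by
      rw [← hb, map_mul, map_pow]
      calc v δ ^ n * v (b (i + 1)) ≤ v δ ^ n * 1 := mul_le_mul_right (hvb _) _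
        _ = v δ ^ n := mul_one _
        _ < 1 := hε1
    have h2 := hs i (b i) (hvb i) h1
    have h3 : v (k * (a i - b i)) < 1 := by
      rw [map_mul]
      calc v k * v (a i - b i) ≤ 1 * v (a i - b i) := mul_le_mul_left hk1 _
        _ = v (a i - b i) := one_mul _
        _ < 1 := hi
    have h4 : v ((F i).derivative.eval (b i) + k * (a i - b i)) = 1 := by
      rw [Valuation.map_add_eq_of_lt_left v (by rw [h2]; exact h3), h2]
    have h5 := congrArg v hk2
    rw [map_mul, h4, mul_one, ← ha, ← hb, ← mul_sub, map_mul, map_pow] at h5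
    exact h5
  have hex : ∃ k, ¬ v (a k - b k) < 1 := by
    by_contra hno
    push Not at hno
    have h1 : ∀ k, (v δ ^ n) ^ k * v (a k - b k) = v (a 0 - b 0) := by
      intro k
      induction k with
      | zero => simp
      | succ k ih => rw [pow_succ, mul_assoc, hstep _ (hno k), ih]
    have h2 := h1 L
    have e1 := haL 0
    have e2 := hbL 0
    rw [Nat.zero_add] at e1 e2
    rw [e1, e2] at h2
    have h3 : v (a 0 - b 0) ≠ 0 := (Valuation.ne_zero_iff v).2 (sub_ne_zero.2 hab)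
    have h4 : (v δ ^ n) ^ L = 1 := mul_right_cancel₀ h3 (by rw [h2, one_mul])
    exact absurd h4 (pow_lt_one₀ zero_le hε1 hL.ne').ne
  classical
  refine ⟨Nat.find hex, ?_⟩
  have h1 : ∀ k, k ≤ Nat.find hex → (v δ ^ n) ^ k * v (a k - b k) = v (a 0 - b 0) := by
    intro k
    induction k with
    | zero => intro _; simp
    | succ k ih =>
      intro hk
      have h2 := Nat.find_min hex (m := k) (by omega)
      rw [not_not] at h2
      rw [pow_succ, mul_assoc, hstep _ h2, ih (by omega)]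
  have h2 : v (a (Nat.find hex) - b (Nat.find hex)) = 1 :=
    le_antisymm (hDle _) (not_lt.1 (Nat.find_spec hex))
  have h3 := h1 _ le_rfl
  rw [h2, mul_one] at h3
  exact h3.symm

end local_

end LocSepAux

end UBV2
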