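import Pool.Agent.UBC.Metric

/-!
# Two finite sets all of whose mutual ratios have the gap property
-/

set_option autoImplicit false

namespace UBV2

open UBC Height NumberField MetricAux

/-- If `X / Y` is contained in a set with the gap property then `X` or `Y` is small. -/
theorem bip_bound (K L : Type*) [Field K] [Field L] [NumberField L] [Algebra K L] (T : Set K)
    (hT : Gap (fun t : K => logHeight₁ (algebraMap K L t)) T) :
    ∃ B : ℕ, ∀ X Y : Finset K, (∀ x ∈ X, x ≠ 0) → (∀ y ∈ Y, y ≠ 0) →
      (∀ x ∈ X, ∀ y ∈ Y, x / y ∈ T) → X.card ≤ B ∨ Y.card ≤ B := by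
  classical
  obtain ⟨N, H0, hN⟩ := hT 4
  set H1 : ℝ := max H0 1 with hH1
  have hH1pos : 0 < H1 := lt_of_lt_of_le one_pos (le_max_right _ _)
  have hfin : {z : L | logHeight₁ z ≤ 4 * H1}.Finite := finite_setOfPred_logHeight₁_le L (4 * H1)
  refine ⟨hfin.toFinset.card + (N + N), fun X Y hX0 hY0 hXY => ?_⟩
  rcases X.eq_empty_or_nonempty with hXe | hXne
  · left; simp [hXe]
  rcases Y.eq_empty_or_nonempty with hYe | hYne
  · right; simp [hYe]
  obtain ⟨⟨p, q⟩, hpq, hmax⟩ := Finset.exists_max_image (X ×ˢ Y)
    (fun w : K × K => dst L w.1 w.2) (hXne.product hYne)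
  rw [Finset.mem_product] at hpq
  obtain ⟨hp, hq⟩ := hpq
  simp only at hp hq
  have hmax' : ∀ x ∈ X, ∀ y ∈ Y, dst L x y ≤ dst L p q := fun x hx y hy =>
    hmax (x, y) (Finset.mem_product.2 ⟨hx, hy⟩)
  have hp0 := hX0 p hp
  have hq0 := hY0 q hq
  by_cases hD : dst L p q / 4 < H1
  · left
    have h1 : X.card ≤ hfin.toFinset.card := by
      refine Finset.card_le_card_of_injOn (fun x => algebraMap K L (x / q)) ?_ ?_
      · intro x hx
        have hx' : x ∈ X := hx
        simp only [Set.Finite.coe_toFinset, Set.mem_ofPred_eq]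
        have h2 := hmax' x hx' q hq
        unfold dst at h2 hD
        linarith
      · intro x hx y hy hxy
        have hxy' : algebraMap K L (x / q) = algebraMap K L (y / q) := hxy
        have h2 := (algebraMap K L).injective hxy'
        exact (div_left_inj' hq0).1 h2
    omega
  · push Not at hD
    -- few elements of `X` are far from a given element of `Y`
    have hfarX : ∀ y ∈ Y, (X.filter (fun x => dst L p q / 4 ≤ dst L x y)).card ≤ N := by
      intro y hy
      have hy0 := hY0 y hy
      have hinj : Set.InjOn (fun k : K => k / y)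
          (X.filter (fun x => dst L p q / 4 ≤ dst L x y) : Finset K) := by
        intro x _ z _ hxz
        exact (div_left_inj' hy0).1 hxz
      rw [← Finset.card_image_of_injOn hinj]
      refine hN (dst L p q / 4) (le_trans (le_max_left _ _) hD) _ ?_
      intro t ht
      obtain ⟨x, hx, rfl⟩ := Finset.mem_image.1 ht
      obtain ⟨hxX, hx2⟩ := Finset.mem_filter.1 hx
      refine ⟨hXY x hxX y hy, hx2, ?_⟩
      have h4 := hmax' x hxX y hy
      have h5 : (4 : ℝ) * (dst L p q / 4) = dst L p q := by ring
      rw [h5]
      exact h4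
    have hfarY : (Y.filter (fun y => dst L p q / 4 ≤ dst L p y)).card ≤ N := by
      have hinj : Set.InjOn (fun k : K => p / k)
          (Y.filter (fun y => dst L p q / 4 ≤ dst L p y) : Finset K) := by
        intro x hx z hz hxz
        have hx0 := hY0 x (Finset.mem_filter.1 (Finset.mem_coe.1 hx)).1
        have hz0 := hY0 z (Finset.mem_filter.1 (Finset.mem_coe.1 hz)).1
        have h1 : p / x = p / z := hxz
        rw [div_eq_div_iff hx0 hz0] at h1
        exact (mul_left_cancel₀ hp0 h1).symm
      rw [← Finset.card_image_of_injOn hinj]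
      refine hN (dst L p q / 4) (le_trans (le_max_left _ _) hD) _ ?_
      intro t ht
      obtain ⟨y, hy, rfl⟩ := Finset.mem_image.1 ht
      obtain ⟨hyY, hy2⟩ := Finset.mem_filter.1 hy
      refine ⟨hXY p hp y hyY, hy2, ?_⟩
      have h4 := hmax' p hp y hyY
      have h5 : (4 : ℝ) * (dst L p q / 4) = dst L p q := by ring
      rw [h5]
      exact h4
    by_cases hYN : Y.card ≤ N
    · right; omega
    · left
      -- an element `y` of `Y` near `p`
      obtain ⟨y, hy, hy2⟩ : ∃ y ∈ Y, dst L p y < dst L p q / 4 := by
        by_contra hcon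
        push Not at hcon
        apply hYN
        have h1 : Y.filter (fun y => dst L p q / 4 ≤ dst L p y) = Y :=
          Finset.filter_true_of_mem hcon
        rw [h1] at hfarY
        exact hfarY
      have hcov : X ⊆ (X.filter (fun x => dst L p q / 4 ≤ dst L x q)) ∪
          (X.filter (fun x => dst L p q / 4 ≤ dst L x y)) := by
        intro x hx
        rw [Finset.mem_union, Finset.mem_filter, Finset.mem_filter]
        by_cases h3 : dst L p q / 4 ≤ dst L x q
        · exact Or.inl ⟨hx, h3⟩
        · right
          refine ⟨hx, ?_⟩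
          push Not at h3
          have h4 : dst L p q ≤ dst L p y + dst L y q := dst_triangle (hY0 y hy)
          have h5 : dst L y q ≤ dst L y x + dst L x q := dst_triangle (hX0 x hx)
          rw [dst_symm y x] at h5
          linarith
      have h6 := (Finset.card_le_card hcov).trans (Finset.card_union_le _ _)
      have h7 := hfarX q hq
      have h8 := hfarX y hy
      omega

end UBV2
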