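import Pool.Agent.UBV2.Mixed
import Pool.Agent.UBV2.Bip

/-!
# Cycles whose length is a power of two

`x 0, …, x (2 ^ s - 1)` distinct, such that quotients of differences whose indices have the same
greatest common divisor with `2 ^ s` are `n`-th powers up to finitely many classes, `n ≥ 6` even.
-/

set_option autoImplicit false

universe u

namespace UBV2

open UBC Height NumberField IsDedekindDomain

namespace CycAux

theorem gcd_odd {s d : ℕ} (hd : ¬ 2 ∣ d) : Nat.gcd d (2 ^ s) = 1 := by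
  have h : Nat.Coprime d 2 := by
    rw [Nat.coprime_comm, Nat.Prime.coprime_iff_not_dvd Nat.prime_two]
    exact hd
  exact Nat.Coprime.pow_right s h

theorem gcd_two {s e : ℕ} (he : ¬ 2 ∣ e) (hs : 1 ≤ s) : Nat.gcd (2 * e) (2 ^ s) = 2 := by
  obtain ⟨s', rfl⟩ : ∃ s', s = s' + 1 := ⟨s - 1, by omega⟩
  rw [pow_succ, mul_comm (2 ^ s') 2, Nat.gcd_mul_left, gcd_odd he]

/-- the hypothesis without the order -/
theorem sym {K : Type*} [Field K] [NumberField K] {n s : ℕ} {x : ℕ → K}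
    {v : HeightOneSpectrum (𝓞 K)}
    (h : ∀ i j i' j' : ℕ, i ≤ j → i' ≤ j' → j < 2 ^ s → j' < 2 ^ s →
      Nat.gcd (j - i) (2 ^ s) = Nat.gcd (j' - i') (2 ^ s) → x i ≠ x j → x i' ≠ x j' →
      ∃ γ : WithZero (Multiplicative ℤ), v.valuation K ((x i - x j) / (x i' - x j')) = γ ^ n)
    {i j i' j' : ℕ} (hi : i < 2 ^ s) (hj : j < 2 ^ s) (hi' : i' < 2 ^ s) (hj' : j' < 2 ^ s)
    (hg : Nat.gcd (j - i + (i - j)) (2 ^ s) = Nat.gcd (j' - i' + (i' - j')) (2 ^ s))
    (h1 : x i ≠ x j) (h2 : x i' ≠ x j') :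
    ∃ γ : WithZero (Multiplicative ℤ), v.valuation K ((x i - x j) / (x i' - x j')) = γ ^ n := by
  have e1 : ∀ a b c : K, (a - b) / c = -((b - a) / c) := fun a b c => by ring
  have e2 : ∀ a b c : K, a / (b - c) = -(a / (c - b)) := fun a b c => by
    rw [← neg_sub c b, div_neg]
  rcases le_total i j with hij | hij <;> rcases le_total i' j' with hij' | hij'
  · exact h i j i' j' hij hij' hj hj' (by
      rwa [Nat.sub_eq_zero_of_le hij, Nat.sub_eq_zero_of_le hij', add_zero, add_zero] at hg) h1 h2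
  · obtain ⟨γ, hγ⟩ := h i j j' i' hij hij' hj hi' (by
      rwa [Nat.sub_eq_zero_of_le hij, Nat.sub_eq_zero_of_le hij', add_zero, zero_add] at hg)
      h1 h2.symm
    exact ⟨γ, by rw [e2, Valuation.map_neg]; exact hγ⟩
  · obtain ⟨γ, hγ⟩ := h j i i' j' hij hij' hi hj' (by
      rwa [Nat.sub_eq_zero_of_le hij, Nat.sub_eq_zero_of_le hij', zero_add, add_zero] at hg)
      h1.symm h2
    exact ⟨γ, by rw [e1, Valuation.map_neg]; exact hγ⟩
  · obtain ⟨γ, hγ⟩ := h j i j' i' hij hij' hi hi' (by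
      rwa [Nat.sub_eq_zero_of_le hij, Nat.sub_eq_zero_of_le hij', zero_add, zero_add] at hg)
      h1.symm h2.symm
    exact ⟨γ, by rw [e1, e2, neg_neg]; exact hγ⟩

end CycAux

open CycAux

/-- Cycles whose length is a power of two. -/
theorem cyc_abs (K : Type u) [Field K] [NumberField K] {n : ℕ} (hn : 6 ≤ n) (hev : Even n)
    (S : Set (HeightOneSpectrum (𝓞 K))) (hS : S.Finite) :
    ∃ B : ℕ, ∀ (s : ℕ) (x : ℕ → K),
      (∀ i j : ℕ, i < 2 ^ s → j < 2 ^ s → x i = x j → i = j) →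
      (∀ v : HeightOneSpectrum (𝓞 K), v ∉ S → ∀ i j i' j' : ℕ, i ≤ j → i' ≤ j' →
        j < 2 ^ s → j' < 2 ^ s →
        Nat.gcd (j - i) (2 ^ s) = Nat.gcd (j' - i') (2 ^ s) → x i ≠ x j → x i' ≠ x j' →
        ∃ γ : WithZero (Multiplicative ℤ), v.valuation K ((x i - x j) / (x i' - x j')) = γ ^ n) →
      2 ^ s ≤ B := by
  classical
  obtain ⟨L, _, _, _, hgap⟩ := exists_gap_mixed K hn hev S hS
  obtain ⟨B, hB⟩ := bip_bound K L _ hgap
  refine ⟨4 * B + 2, fun s x hinj hval => ?_⟩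
  obtain ⟨m, hm⟩ := hev
  have hm' : n = m * 2 := by omega
  rcases Nat.lt_or_ge s 2 with hs | hs
  · have h1 : 2 ^ s ≤ 2 ^ 1 := Nat.pow_le_pow_right (by norm_num) (by omega)
    omega
  obtain ⟨s', rfl⟩ : ∃ s', s = s' + 2 := ⟨s - 2, by omega⟩
  set q : ℕ := 2 ^ s' with hq
  have hk : 2 ^ (s' + 2) = 4 * q := by rw [pow_add, hq]; ring
  have hq0 : 0 < q := by rw [hq]; positivity
  have hne : ∀ i j : ℕ, i < 4 * q → j < 4 * q → i ≠ j → x i - x j ≠ 0 := fun i j hi hj hij h0 =>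
    hij (hinj i j (by rw [hk]; exact hi) (by rw [hk]; exact hj) (sub_eq_zero.1 h0))
  -- odd differences
  have hodd : ∀ v : HeightOneSpectrum (𝓞 K), v ∉ S → ∀ i j i' j' : ℕ, i < 4 * q → j < 4 * q →
      i' < 4 * q → j' < 4 * q → ¬ 2 ∣ (j - i + (i - j)) → ¬ 2 ∣ (j' - i' + (i' - j')) →
      ∃ γ : WithZero (Multiplicative ℤ),
        v.valuation K ((x i - x j) / (x i' - x j')) = γ ^ n := by
    intro v hv i j i' j' hi hj hi' hj' h1 h2
    refine sym (hval v hv) (by rw [hk]; exact hi) (by rw [hk]; exact hj)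
      (by rw [hk]; exact hi') (by rw [hk]; exact hj') ?_ ?_ ?_
    · rw [gcd_odd h1, gcd_odd h2]
    · exact sub_ne_zero.1 (hne i j hi hj (by rintro rfl; simp at h1))
    · exact sub_ne_zero.1 (hne i' j' hi' hj' (by rintro rfl; simp at h2))
  -- the sets
  set μ : K → K := fun b => (x 0 - b) / (x 2 - b) with hμ
  have hx02 : x 0 - x 2 ≠ 0 := hne 0 2 (by omega) (by omega) (by norm_num)
  have hμinj : ∀ i j : ℕ, i < 4 * q → j < 4 * q → i ≠ 2 → j ≠ 2 → μ (x i) = μ (x j) → i = j := by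
    intro i j hi hj hi2 hj2 hij
    have a1 : x 2 - x i ≠ 0 := hne 2 i (by omega) hi hi2.symm
    have a2 : x 2 - x j ≠ 0 := hne 2 j (by omega) hj hj2.symm
    simp only [hμ] at hij
    rw [div_eq_div_iff a1 a2] at hij
    have h1 : (x 0 - x 2) * (x i - x j) = 0 := by linear_combination hij
    have h2 := (mul_eq_zero.1 h1).resolve_left hx02
    by_contra hcon
    exact hne i j hi hj hcon h2
  have hμ0 : ∀ i : ℕ, i < 4 * q → i ≠ 0 → i ≠ 2 → μ (x i) ≠ 0 := by
    intro i hi h0 h2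
    exact div_ne_zero (hne 0 i (by omega) hi h0.symm) (hne 2 i (by omega) hi h2.symm)
  have hcard : ∀ r : ℕ, r < 4 → r ≠ 2 →
      ((Finset.range q).image (fun t => μ (x (4 * t + r)))).card = q := by
    intro r hr hr2
    rw [Finset.card_image_of_injOn, Finset.card_range]
    intro t ht u hu htu
    rw [Finset.mem_coe, Finset.mem_range] at ht hu
    have h1 := hμinj (4 * t + r) (4 * u + r) (by omega) (by omega) (by omega) (by omega) htu
    omega
  have hmain := hB ((Finset.range q).image (fun t => μ (x (4 * t + 1))))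
    ((Finset.range q).image (fun t => μ (x (4 * t + 3)))) ?_ ?_ ?_
  · rw [hcard 1 (by norm_num) (by norm_num), hcard 3 (by norm_num) (by norm_num)] at hmain
    rw [hk]
    omega
  · intro z hz
    obtain ⟨t, ht, rfl⟩ := Finset.mem_image.1 hz
    rw [Finset.mem_range] at ht
    exact hμ0 _ (by omega) (by omega) (by omega)
  · intro z hz
    obtain ⟨t, ht, rfl⟩ := Finset.mem_image.1 hz
    rw [Finset.mem_range] at ht
    exact hμ0 _ (by omega) (by omega) (by omega)
  · intro z hz z' hz'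
    obtain ⟨t, ht, rfl⟩ := Finset.mem_image.1 hz
    obtain ⟨u, hu, rfl⟩ := Finset.mem_image.1 hz'
    rw [Finset.mem_range] at ht hu
    have a1 : x 0 - x (4 * t + 1) ≠ 0 := hne _ _ (by omega) (by omega) (by omega)
    have a2 : x 2 - x (4 * t + 1) ≠ 0 := hne _ _ (by omega) (by omega) (by omega)
    have a3 : x 0 - x (4 * u + 3) ≠ 0 := hne _ _ (by omega) (by omega) (by omega)
    have a4 : x 2 - x (4 * u + 3) ≠ 0 := hne _ _ (by omega) (by omega) (by omega)
    have a5 : x (4 * u + 3) - x (4 * t + 1) ≠ 0 := hne _ _ (by omega) (by omega) (by omega)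
    have hlam : μ (x (4 * t + 1)) / μ (x (4 * u + 3)) =
        ((x 0 - x (4 * t + 1)) / (x 2 - x (4 * t + 1))) *
          ((x 2 - x (4 * u + 3)) / (x 0 - x (4 * u + 3))) := by
      simp only [hμ]
      field_simp
    have h1lam : 1 - μ (x (4 * t + 1)) / μ (x (4 * u + 3)) =
        ((x (4 * u + 3) - x (4 * t + 1)) / (x 0 - x 2)) * ((x 0 - x 2) / (x 0 - x (4 * t + 1))) ^ 2 /
          (((x 2 - x (4 * t + 1)) / (x 0 - x (4 * t + 1))) *
            ((x 0 - x (4 * u + 3)) / (x 0 - x (4 * t + 1)))) := by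
      rw [hlam]
      field_simp
      ring
    have h1ne : 1 - μ (x (4 * t + 1)) / μ (x (4 * u + 3)) ≠ 0 := by
      rw [h1lam]
      exact div_ne_zero (mul_ne_zero (div_ne_zero a5 hx02) (pow_ne_zero _ (div_ne_zero hx02 a1)))
        (mul_ne_zero (div_ne_zero a2 a1) (div_ne_zero a3 a1))
    refine ⟨fun h => h1ne (by rw [h, sub_self]), ⟨?_, ?_⟩, ⟨h1ne, ?_⟩⟩
    · exact div_ne_zero (hμ0 _ (by omega) (by omega) (by omega))
        (hμ0 _ (by omega) (by omega) (by omega))
    · intro v hv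
      obtain ⟨γ1, h1⟩ := hodd v hv 0 (4 * t + 1) 2 (4 * t + 1) (by omega) (by omega) (by omega)
        (by omega) (by omega) (by omega)
      obtain ⟨γ2, h2⟩ := hodd v hv 2 (4 * u + 3) 0 (4 * u + 3) (by omega) (by omega) (by omega)
        (by omega) (by omega) (by omega)
      exact ⟨γ1 * γ2, by rw [hlam, map_mul, h1, h2, mul_pow]⟩
    · intro v hv
      obtain ⟨γ1, h1⟩ := hodd v hv 2 (4 * t + 1) 0 (4 * t + 1) (by omega) (by omega) (by omega)
        (by omega) (by omega) (by omega)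
      obtain ⟨γ2, h2⟩ := hodd v hv 0 (4 * u + 3) 0 (4 * t + 1) (by omega) (by omega) (by omega)
        (by omega) (by omega) (by omega)
      obtain ⟨γ3, h3⟩ := sym (hval v hv) (i := 4 * u + 3) (j := 4 * t + 1) (i' := 0) (j' := 2)
        (by omega) (by omega) (by omega) (by omega) (by
          obtain ⟨e, he1, he2⟩ : ∃ e : ℕ, 4 * t + 1 - (4 * u + 3) + (4 * u + 3 - (4 * t + 1)) =
              2 * e ∧ ¬ 2 ∣ e := by
            rcases le_total t u with htu | htu
            · exact ⟨2 * (u - t) + 1, by omega, by omega⟩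
            · rcases Nat.eq_or_lt_of_le htu with h | h
              · exact ⟨1, by omega, by omega⟩
              · exact ⟨2 * (t - u - 1) + 1, by omega, by omega⟩
          rw [he1, gcd_two he2 (by omega)]
          have h5 : (2 - 0 + (0 - 2) : ℕ) = 2 * 1 := by norm_num
          rw [h5, gcd_two (by norm_num) (by omega)])
        (sub_ne_zero.1 a5) (sub_ne_zero.1 hx02)
      refine ⟨γ3 ^ m * v.valuation K ((x 0 - x 2) / (x 0 - x (4 * t + 1))) /
        ((γ1 * γ2) ^ m), ?_⟩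
      rw [h1lam, map_div₀, map_mul, map_mul, map_pow, h1, h2, h3, ← mul_pow, hm', pow_mul, pow_mul,
        ← mul_pow, ← div_pow]

end UBV2
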