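import Pool.Agent.UBV2.LocSep

/-!
# Quotients of differences in a cycle, separable local type
-/

set_option autoImplicit false

namespace UBV2

open WithZero Polynomial UBC

/-- The polynomial `γ⁻¹ δ ^ n f(γ z)`. -/
noncomputable def resc {K : Type*} [Field K] (n : ℕ) (γ δ : K) (f : K[X]) : K[X] :=
  C (γ⁻¹ * δ ^ n) * f.comp (C γ * X)

/-- the local type of a set of polynomials: with a common `γ` and `δ`, all `F = γ⁻¹ δ ^ n f(γ z)` are
integral with unit leading coefficient, and without multiple roots in the residue field if `δ` is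
not a unit -/
def SepType {K : Type*} [Field K] (v : Valuation K ℤᵐ⁰) (n : ℕ) (A : Set K[X]) : Prop :=
  ∃ γ δ : K, γ ≠ 0 ∧ δ ≠ 0 ∧ v δ ≤ 1 ∧ ∀ f ∈ A, Nice v (resc n γ δ f) ∧
    (v δ < 1 → Simple v (resc n γ δ f))

theorem cyc_sep {K : Type*} [Field K] (v : Valuation K ℤᵐ⁰) {n : ℕ} (hn : 0 < n)
    {f : ℕ → K[X]} (hp : SepType v n (Set.range f)) {ℓ : ℕ} (hℓ : 0 < ℓ)
    (hf : ∀ i, f (i + ℓ) = f i) {a : ℕ → K}
    (ha : ∀ i, a (i + 1) = (f i).eval (a i)) {k : ℕ} (hk : 0 < k)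
    (hak : ∀ i, a (i + ℓ * k) = a i) {i j i' j' : ℕ} (hij : i ≤ j) (hij' : i' ≤ j')
    (hg : Nat.gcd (j - i) k = Nat.gcd (j' - i') k) (h1 : a (ℓ * i) ≠ a (ℓ * j))
    (h2 : a (ℓ * i') ≠ a (ℓ * j')) :
    ∃ ε : ℤᵐ⁰, v ((a (ℓ * i) - a (ℓ * j)) / (a (ℓ * i') - a (ℓ * j'))) = ε ^ n := by
  obtain ⟨γ, δ, hγ, hδ0, hδ, hall⟩ := hp
  set F : ℕ → K[X] := fun i => resc n γ δ (f i) with hFdef
  have hF : ∀ i, Nice v (F i) := fun i => (hall _ ⟨i, rfl⟩).1
  set b : ℕ → K := fun i => γ⁻¹ * a i with hbdef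
  have hb : ∀ i, δ ^ n * b (i + 1) = (F i).eval (b i) := by
    intro i
    simp only [hbdef, hFdef, resc, eval_mul, eval_C, eval_comp, eval_X]
    rw [mul_inv_cancel_left₀ hγ, ← ha]
    ring
  have hFℓ : ∀ t i, F (i + ℓ * t) = F i := by
    intro t
    induction t with
    | zero => intro i; simp
    | succ t ih =>
      intro i
      have e : i + ℓ * (t + 1) = (i + ℓ * t) + ℓ := by ring
      rw [e]
      have h3 : F (i + ℓ * t + ℓ) = F (i + ℓ * t) := by simp only [hFdef, hf]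
      rw [h3, ih]
  have hbk : ∀ i, b (i + ℓ * k) = b i := fun i => by simp only [hbdef, hak]
  have hrec : ∀ t i, δ ^ n * b (i + 1 + ℓ * t) = (F i).eval (b (i + ℓ * t)) := by
    intro t i
    have e : i + 1 + ℓ * t = (i + ℓ * t) + 1 := by ring
    rw [e, hb, hFℓ]
  have hper : ∀ t i, b (i + ℓ * k + ℓ * t) = b (i + ℓ * t) := by
    intro t i
    have e : i + ℓ * k + ℓ * t = (i + ℓ * t) + ℓ * k := by ring
    rw [e, hbk]
  have hL : 0 < ℓ * k := Nat.mul_pos hℓ hk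
  have hne : ∀ m n, a (ℓ * m) ≠ a (ℓ * n) → b (ℓ * m) ≠ b (ℓ * n) := fun m n h h' =>
    h (mul_left_cancel₀ (inv_ne_zero hγ) h')
  have hratio : (a (ℓ * i) - a (ℓ * j)) / (a (ℓ * i') - a (ℓ * j')) =
      (b (ℓ * i) - b (ℓ * j)) / (b (ℓ * i') - b (ℓ * j')) := by
    simp only [hbdef, ← mul_sub]
    rw [mul_div_mul_left _ _ (inv_ne_zero hγ)]
  rw [hratio]
  rcases hδ.lt_or_eq with hδ1 | hδ1
  · have key : ∀ m n', a (ℓ * m) ≠ a (ℓ * n') →
        ∃ e : ℕ, v (b (ℓ * m) - b (ℓ * n')) = (v δ ^ n) ^ e := by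
      intro m n' h
      obtain ⟨e, he⟩ := LocSepAux.bad_reach v hδ0 hδ hF (a := fun i => b (i + ℓ * m))
        (b := fun i => b (i + ℓ * n')) (fun i => hrec m i) (fun i => hrec n' i) hL
        (fun i => hper m i) (fun i => hper n' i) hδ1 hn
        (fun i => (hall _ ⟨i, rfl⟩).2 hδ1) (by
          simp only [Nat.zero_add]
          exact hne m n' h)
      simp only [Nat.zero_add] at he
      exact ⟨e, he⟩
    obtain ⟨e, he⟩ := key i j h1
    obtain ⟨e', he'⟩ := key i' j' h2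
    refine ⟨(v δ) ^ e / (v δ) ^ e', ?_⟩
    rw [map_div₀, he, he', div_pow]
    congr 1
    · rw [← pow_mul, ← pow_mul, mul_comm]
    · rw [← pow_mul, ← pow_mul, mul_comm]
  · have hsh : ∀ m n' t, v (b (ℓ * (m + t)) - b (ℓ * (n' + t))) = v (b (ℓ * m) - b (ℓ * n')) := by
      intro m n' t
      have h3 := LocSepAux.good_const v hδ hF (a := fun i => b (i + ℓ * m))
        (b := fun i => b (i + ℓ * n')) (fun i => hrec m i) (fun i => hrec n' i) hL
        (fun i => hper m i) (fun i => hper n' i) hδ1 (ℓ * t)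
      simp only [Nat.zero_add] at h3
      have e1 : ℓ * t + ℓ * m = ℓ * (m + t) := by ring
      have e2 : ℓ * t + ℓ * n' = ℓ * (n' + t) := by ring
      rw [e1, e2] at h3
      exact h3
    have hpx : ∀ i, b (ℓ * (i + k)) = b (ℓ * i) := by
      intro i
      have e : ℓ * (i + k) = ℓ * i + ℓ * k := by ring
      rw [e, hbk]
    have k1 := LocSepAux.gen_key v (x := fun i => b (ℓ * i)) hk hpx hsh hij
    have k2 := LocSepAux.gen_key v (x := fun i => b (ℓ * i)) hk hpx hsh hij'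
    rw [hg, ← k2] at k1
    refine ⟨1, ?_⟩
    rw [map_div₀, k1, div_self ((Valuation.ne_zero_iff v).2 (sub_ne_zero.2 (hne _ _ h2))), one_pow]

end UBV2
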