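import Pool.Agent.UBV2.CycSep
import Pool.Agent.UBV2.Cyc
import Pool.Agent.UBC.CycAbs
import Pool.Agent.UBC.FinalTri

/-!
# Periods of compositions of polynomials of separable local type
-/

set_option autoImplicit false

universe u

namespace UBV2

open UBC Height NumberField IsDedekindDomain Polynomial WithZero

/-- `a` is the orbit of a cycle of exact length `k` for the composition of the maps `f i`,
`i < ℓ` -/
structure IsCycL {K : Type*} [Field K] (f : ℕ → K[X]) (ℓ : ℕ) (a : ℕ → K) (k : ℕ) : Prop where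
  lpos : 0 < ℓ
  kpos : 0 < k
  hf : ∀ i, f (i + ℓ) = f i
  ha : ∀ i, a (i + 1) = (f i).eval (a i)
  hak : ∀ i, a (i + ℓ * k) = a i
  hne : ∀ j, 0 < j → j < k → a (ℓ * j) ≠ a 0

namespace IsCycL

variable {K : Type*} [Field K] {f : ℕ → K[X]} {ℓ : ℕ} {a : ℕ → K} {k : ℕ}

lemma shift_f (h : IsCycL f ℓ a k) (t i : ℕ) : f (i + ℓ * t) = f i := by
  induction t with
  | zero => simp
  | succ t ih =>
    have e : i + ℓ * (t + 1) = (i + ℓ * t) + ℓ := by ring
    rw [e, h.hf]
    exact ih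

lemma shift_rec (h : IsCycL f ℓ a k) (t i : ℕ) :
    a (i + 1 + ℓ * t) = (f i).eval (a (i + ℓ * t)) := by
  have e : i + 1 + ℓ * t = (i + ℓ * t) + 1 := by ring
  rw [e, h.ha, h.shift_f]

/-- the elements of the cycle are distinct -/
lemma ne (h : IsCycL f ℓ a k) {m n : ℕ} (hmn : m < n) (hn : n < k) :
    a (ℓ * m) ≠ a (ℓ * n) := by
  intro heq
  have h1 : ∀ i, a (i + ℓ * m) = a (i + ℓ * n) := by
    intro i
    induction i with
    | zero => rw [Nat.zero_add, Nat.zero_add, heq]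
    | succ i ih =>
      rw [h.shift_rec m i, h.shift_rec n i, ih]
  have h2 := h1 (ℓ * (k - m))
  have e1 : ℓ * (k - m) + ℓ * m = 0 + ℓ * k := by
    rw [← Nat.mul_add, Nat.sub_add_cancel (by omega), Nat.zero_add]
  have e2 : ℓ * (k - m) + ℓ * n = ℓ * (n - m) + ℓ * k := by
    rw [← Nat.mul_add, ← Nat.mul_add]
    congr 1
    omega
  rw [e1, e2, h.hak, h.hak] at h2
  exact h.hne (n - m) (by omega) (by omega) h2.symm

/-- the elements of the cycle are distinct -/
lemma ne' (h : IsCycL f ℓ a k) {m n : ℕ} (hmn : m ≠ n) (hm : m < k) (hn : n < k) :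
    a (ℓ * m) ≠ a (ℓ * n) := by
  rcases lt_or_gt_of_ne hmn with h1 | h1
  · exact h.ne h1 hn
  · exact (h.ne h1 hm).symm

lemma inj (h : IsCycL f ℓ a k) (m n : ℕ) (hm : m < k) (hn : n < k)
    (heq : a (ℓ * m) = a (ℓ * n)) : m = n := by
  by_contra hne
  exact h.ne' hne hm hn heq

/-- passing to a power of the composition -/
lemma sub (h : IsCycL f ℓ a k) {u w : ℕ} (hk : k = u * w) : IsCycL f (ℓ * u) a w := by
  have hu : 0 < u := by
    rcases Nat.eq_zero_or_pos u with hu | hu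
    · have := h.kpos
      rw [hk, hu, Nat.zero_mul] at this
      exact absurd this (lt_irrefl _)
    · exact hu
  have hw : 0 < w := by
    rcases Nat.eq_zero_or_pos w with hw | hw
    · have := h.kpos
      rw [hk, hw, Nat.mul_zero] at this
      exact absurd this (lt_irrefl _)
    · exact hw
  refine ⟨Nat.mul_pos h.lpos hu, hw, fun i => h.shift_f u i, h.ha, fun i => ?_,
    fun j hj hjw => ?_⟩
  · rw [mul_assoc, ← hk]
    exact h.hak i
  · rw [mul_assoc]
    refine h.hne (u * j) (Nat.mul_pos hu hj) ?_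
    rw [hk]
    exact Nat.mul_lt_mul_of_pos_left hjw hu

/-- quotients of differences -/
lemma val (h : IsCycL f ℓ a k) (v : Valuation K ℤᵐ⁰) {n : ℕ} (hn : 0 < n)
    (hp : SepType v n (Set.range f)) {i j i' j' : ℕ} (hij : i ≤ j) (hij' : i' ≤ j')
    (hg : Nat.gcd (j - i) k = Nat.gcd (j' - i') k) (h1 : a (ℓ * i) ≠ a (ℓ * j))
    (h2 : a (ℓ * i') ≠ a (ℓ * j')) :
    ∃ γ : ℤᵐ⁰, v ((a (ℓ * i) - a (ℓ * j)) / (a (ℓ * i') - a (ℓ * j'))) = γ ^ n :=
  cyc_sep v hn hp h.lpos h.hf h.ha h.kpos h.hak hij hij' hg h1 h2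

/-- quotients of differences, symmetric form -/
lemma val' (h : IsCycL f ℓ a k) (v : Valuation K ℤᵐ⁰) {n : ℕ} (hn : 0 < n)
    (hp : SepType v n (Set.range f)) {i j i' j' : ℕ}
    (hg : Nat.gcd (Nat.dist i j) k = Nat.gcd (Nat.dist i' j') k)
    (h1 : a (ℓ * i) ≠ a (ℓ * j)) (h2 : a (ℓ * i') ≠ a (ℓ * j')) :
    ∃ γ : ℤᵐ⁰, v ((a (ℓ * i) - a (ℓ * j)) / (a (ℓ * i') - a (ℓ * j'))) = γ ^ n := by
  rcases le_total i j with hmn | hmn <;> rcases le_total i' j' with hmn' | hmn'
  · rw [Nat.dist_eq_sub_of_le hmn, Nat.dist_eq_sub_of_le hmn'] at hg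
    exact h.val v hn hp hmn hmn' hg h1 h2
  · rw [Nat.dist_eq_sub_of_le hmn, Nat.dist_eq_sub_of_le_right hmn'] at hg
    obtain ⟨γ, hγ⟩ := h.val v hn hp hmn hmn' hg h1 h2.symm
    refine ⟨γ, ?_⟩
    rw [← hγ, map_div₀, map_div₀, Valuation.map_sub_swap v (a (ℓ * i')) (a (ℓ * j'))]
  · rw [Nat.dist_eq_sub_of_le_right hmn, Nat.dist_eq_sub_of_le hmn'] at hg
    obtain ⟨γ, hγ⟩ := h.val v hn hp hmn hmn' hg h1.symm h2
    refine ⟨γ, ?_⟩
    rw [← hγ, map_div₀, map_div₀, Valuation.map_sub_swap v (a (ℓ * i)) (a (ℓ * j))]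
  · rw [Nat.dist_eq_sub_of_le_right hmn, Nat.dist_eq_sub_of_le_right hmn'] at hg
    obtain ⟨γ, hγ⟩ := h.val v hn hp hmn hmn' hg h1.symm h2.symm
    refine ⟨γ, ?_⟩
    rw [← hγ, map_div₀, map_div₀, Valuation.map_sub_swap v (a (ℓ * i)) (a (ℓ * j)),
      Valuation.map_sub_swap v (a (ℓ * i')) (a (ℓ * j'))]

end IsCycL

/-- The odd part of the length of a cycle is bounded. -/
theorem oddpart_sep (K : Type u) [Field K] [NumberField K] {n : ℕ} (hn : 5 ≤ n)
    (S : Set (HeightOneSpectrum (𝓞 K))) (hS : S.Finite) :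
    ∃ B : ℕ, ∀ f : ℕ → K[X],
      (∀ v : HeightOneSpectrum (𝓞 K), v ∉ S → SepType (v.valuation K) n (Set.range f)) →
      ∀ (ℓ : ℕ) (a : ℕ → K) (e m : ℕ), Odd m → IsCycL f ℓ a (2 ^ e * m) → m ≤ B := by
  obtain ⟨B, hB⟩ := cyc_odd_abs K hn S hS
  refine ⟨B.factorial, fun f hp ℓ a e m hm hcyc => ?_⟩
  refine Nat.le_of_dvd (Nat.factorial_pos B) ?_
  rw [Nat.dvd_iff_prime_pow_dvd_dvd]
  intro q s hq hqs
  rcases Nat.eq_zero_or_pos s with rfl | hs
  · rw [pow_zero]
    exact one_dvd _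
  have hq2 : q ≠ 2 := by
    rintro rfl
    have h1 : 2 ∣ m := (dvd_pow_self 2 hs.ne').trans hqs
    exact (Nat.not_even_iff_odd.2 hm) (even_iff_two_dvd.2 h1)
  obtain ⟨w, hw⟩ := hqs
  have h1 : IsCycL f (ℓ * (2 ^ e * w)) a (q ^ s) := hcyc.sub (by rw [hw]; ring)
  refine Nat.dvd_factorial (pow_pos hq.pos s) ?_
  refine hB q s hq hq2 (fun t => a (ℓ * (2 ^ e * w) * t)) (fun i j hi hj => h1.inj i j hi hj) ?_
  intro v hv i j i' j' _ _ _ _ hg h2 h3
  exact h1.val' (v.valuation K) (by omega) (hp v hv) hg h2 h3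

/-- The length of a cycle is bounded if `n ≥ 6` is even. -/
theorem all_sep (K : Type u) [Field K] [NumberField K] {n : ℕ} (hn : 6 ≤ n) (hev : Even n)
    (S : Set (HeightOneSpectrum (𝓞 K))) (hS : S.Finite) :
    ∃ B : ℕ, ∀ f : ℕ → K[X],
      (∀ v : HeightOneSpectrum (𝓞 K), v ∉ S → SepType (v.valuation K) n (Set.range f)) →
      ∀ (ℓ : ℕ) (a : ℕ → K) (k : ℕ), IsCycL f ℓ a k → k ≤ B := by
  obtain ⟨B1, hB1⟩ := oddpart_sep K (n := n) (by omega) S hS
  obtain ⟨B2, hB2⟩ := cyc_abs K hn hev S hS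
  refine ⟨B2 * B1, fun f hp ℓ a k hcyc => ?_⟩
  obtain ⟨e, m, hm, hk⟩ := Nat.exists_eq_two_pow_mul_odd hcyc.kpos.ne'
  rw [hk] at hcyc ⊢
  refine Nat.mul_le_mul ?_ (hB1 f hp ℓ a e m hm hcyc)
  have h1 : IsCycL f (ℓ * m) a (2 ^ e) := hcyc.sub (mul_comm _ _)
  refine hB2 e (fun t => a (ℓ * m * t)) (fun i j hi hj => h1.inj i j hi hj) ?_
  intro v hv i j i' j' hij hij' _ _ hg h2 h3
  exact h1.val (v.valuation K) (by omega) (hp v hv) hij hij' hg h2 h3

/-- the composition of the polynomials in the list `l` (the first one is applied first) -/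
noncomputable def compL {K : Type*} [Field K] (l : List K[X]) (z : K) : K :=
  l.foldl (fun w f => f.eval w) z

/-- the cycle of a periodic point of a composition -/
theorem isCycL_comp {K : Type*} [Field K] {l : List K[X]} (hl : l ≠ []) (x : K) {p : ℕ}
    (hp : 0 < p) (hx : Function.minimalPeriod (compL l) x = p) :
    IsCycL (ListSeq.letter 0 l) l.length
      (ListSeq.orb (fun w (f : K[X]) => f.eval w) 0 l x) p := by
  have hpos : 0 < l.length := List.length_pos_iff.2 hl
  have hit : ∀ (k i : ℕ), ListSeq.orb (fun w (f : K[X]) => f.eval w) 0 l x (i + l.length * k) =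
      ListSeq.orb (fun w (f : K[X]) => f.eval w) 0 l ((compL l)^[k] x) i := fun k i =>
    ListSeq.orb_add_mul (fun w (f : K[X]) => f.eval w) 0 l k x i
  refine ⟨hpos, hp, fun i => ?_, fun i => ?_, fun i => ?_, fun j hj hjp => ?_⟩
  · unfold ListSeq.letter
    rw [Nat.add_mod_right]
  · rw [ListSeq.orb_succ]
  · rw [hit, ← hx, Function.iterate_minimalPeriod]
  · have h1 := hit j 0
    rw [Nat.zero_add] at h1
    rw [h1]
    change (compL l)^[j] x ≠ x
    intro h2
    exact Function.not_isPeriodicPt_of_pos_of_lt_minimalPeriod hj.ne' (by rw [hx]; exact hjp) h2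

namespace CountAux

variable {K : Type*} [Field K]

/-- the polynomial of the composition -/
noncomputable def pol (l : List K[X]) (W : K[X]) : K[X] :=
  l.foldl (fun W f => f.comp W) W

lemma eval_pol (l : List K[X]) (W : K[X]) (z : K) :
    (pol l W).eval z = compL l (W.eval z) := by
  unfold pol compL
  induction l generalizing W with
  | nil => rfl
  | cons P l ih =>
    rw [List.foldl_cons, List.foldl_cons, ih, eval_comp]

lemma natDegree_pol (l : List K[X]) (W : K[X]) :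
    (pol l W).natDegree = (l.map natDegree).prod * W.natDegree := by
  unfold pol
  induction l generalizing W with
  | nil => simp
  | cons P l ih =>
    rw [List.foldl_cons, ih, natDegree_comp, List.map_cons, List.prod_cons]
    ring

/-- the polynomial of the iterate -/
noncomputable def itp (l : List K[X]) : ℕ → K[X]
  | 0 => X
  | k + 1 => pol l (itp l k)

lemma eval_itp (l : List K[X]) (k : ℕ) (z : K) :
    (itp l k).eval z = (compL l)^[k] z := by
  induction k with
  | zero => simp [itp]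
  | succ k ih =>
    rw [Function.iterate_succ_apply', ← ih]
    exact eval_pol l _ z

lemma natDegree_itp (l : List K[X]) (k : ℕ) :
    (itp l k).natDegree = ((l.map natDegree).prod) ^ k := by
  induction k with
  | zero => simp [itp]
  | succ k ih =>
    rw [pow_succ', ← ih]
    exact natDegree_pol l _

lemma two_le_prod {l : List ℕ} (h : ∀ d ∈ l, 2 ≤ d) (hne : l ≠ []) : 2 ≤ l.prod := by
  induction l with
  | nil => exact absurd rfl hne
  | cons d l ih =>
    rw [List.prod_cons]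
    have h1 := h d List.mem_cons_self
    rcases eq_or_ne l [] with h2 | h2
    · rw [h2]
      simpa using h1
    · have h3 := ih (fun e he => h e (List.mem_cons_of_mem _ he)) h2
      calc 2 ≤ 2 * 2 := by norm_num
        _ ≤ d * l.prod := Nat.mul_le_mul h1 h3

/-- number of points with `F^k x = x` -/
lemma card_fixed (l : List K[X]) (hl : ∀ f ∈ l, 2 ≤ f.natDegree) (hne : l ≠ []) {k : ℕ}
    (hk : 0 < k) :
    {x : K | (compL l)^[k] x = x}.encard ≤ ((((l.map natDegree).prod) ^ k : ℕ) : ℕ∞) := by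
  classical
  have h2 : 2 ≤ (l.map natDegree).prod := by
    refine two_le_prod ?_ (by simpa using hne)
    intro d hd
    obtain ⟨f, hf, rfl⟩ := List.mem_map.1 hd
    exact hl f hf
  have hdeg : (itp l k - X).natDegree = ((l.map natDegree).prod) ^ k := by
    rw [← natDegree_itp l k]
    refine natDegree_sub_eq_left_of_natDegree_lt ?_
    rw [natDegree_X, natDegree_itp l k]
    exact one_lt_pow₀ (by omega) hk.ne'
  have h0 : itp l k - X ≠ 0 := by
    intro h
    rw [h, natDegree_zero] at hdeg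
    exact absurd hdeg.symm (pow_ne_zero _ (by omega))
  have hsub : {x : K | (compL l)^[k] x = x} ⊆ ((itp l k - X).roots.toFinset : Set K) := by
    intro x hx
    rw [Finset.mem_coe, Multiset.mem_toFinset, mem_roots h0, IsRoot.def, eval_sub, eval_X,
      eval_itp]
    exact sub_eq_zero.2 hx
  refine (Set.encard_le_encard hsub).trans ?_
  rw [Set.encard_coe_eq_coe_finsetCard]
  have h1 : (itp l k - X).roots.toFinset.card ≤ ((l.map natDegree).prod) ^ k := by
    refine (Multiset.toFinset_card_le _).trans ?_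
    rw [← hdeg]
    exact card_roots' _
  exact_mod_cast h1

/-- a bound for the periods gives a bound for the number of points -/
theorem card_of_period (l : List K[X]) (hl : ∀ f ∈ l, 2 ≤ f.natDegree) (hne : l ≠ []) (B : ℕ)
    (T : Set K) (hT : ∀ x ∈ T, 0 < Function.minimalPeriod (compL l) x ∧
      Function.minimalPeriod (compL l) x ≤ B) :
    T.encard ≤ ((((l.map natDegree).prod) ^ (2 * B) : ℕ) : ℕ∞) := by
  classical
  have h2 : 2 ≤ (l.map natDegree).prod := by
    refine two_le_prod ?_ (by simpa using hne)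
    intro d hd
    obtain ⟨f, hf, rfl⟩ := List.mem_map.1 hd
    exact hl f hf
  set D : ℕ := (l.map natDegree).prod with hD
  set F : K → K := compL l with hF
  have hsub : T ⊆ ⋃ k ∈ Finset.Icc 1 B, {x : K | F^[k] x = x} := by
    intro x hx
    obtain ⟨h1, h2⟩ := hT x hx
    rw [Set.mem_iUnion₂]
    exact ⟨Function.minimalPeriod F x, Finset.mem_Icc.2 ⟨h1, h2⟩,
      Function.iterate_minimalPeriod⟩
  refine (Set.encard_le_encard hsub).trans ?_
  have h3 : (⋃ k ∈ Finset.Icc 1 B, {x : K | F^[k] x = x}).encard ≤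
      ∑ k ∈ Finset.Icc 1 B, {x : K | F^[k] x = x}.encard := by
    induction Finset.Icc 1 B using Finset.induction_on with
    | empty => simp
    | insert a s ha ih =>
      rw [Finset.set_biUnion_insert, Finset.sum_insert ha]
      exact (Set.encard_union_le _ _).trans (add_le_add le_rfl ih)
  refine h3.trans ?_
  have h4 : ∑ k ∈ Finset.Icc 1 B, {x : K | F^[k] x = x}.encard ≤
      ∑ k ∈ Finset.Icc 1 B, ((D ^ B : ℕ) : ℕ∞) := by
    refine Finset.sum_le_sum fun k hk => ?_
    rw [Finset.mem_Icc] at hk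
    refine (card_fixed l hl hne (by omega)).trans ?_
    have h5 : D ^ k ≤ D ^ B := Nat.pow_le_pow_right (by omega) hk.2
    exact_mod_cast h5
  refine h4.trans ?_
  rw [Finset.sum_const, Nat.card_Icc, Nat.add_sub_cancel, nsmul_eq_mul]
  have h6 : B * D ^ B ≤ D ^ (2 * B) := by
    rw [two_mul, pow_add]
    refine Nat.mul_le_mul_right _ ?_
    exact (Nat.lt_two_pow_self).le.trans (Nat.pow_le_pow_left h2 B)
  exact_mod_cast h6

end CountAux

/-- the degree of the rescaled polynomial -/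
theorem two_le_natDegree_resc {K : Type*} [Field K] {n : ℕ} {γ δ : K} (hγ : γ ≠ 0) (hδ : δ ≠ 0)
    {f : K[X]} (hf : 2 ≤ f.natDegree) : 2 ≤ (resc n γ δ f).natDegree := by
  unfold resc
  rw [natDegree_C_mul (mul_ne_zero (inv_ne_zero hγ) (pow_ne_zero n hδ)), natDegree_comp,
    natDegree_C_mul_X _ hγ, mul_one]
  exact hf

/-- the complete statement -/
theorem uniform_sep (K : Type u) [Field K] [NumberField K] {n : ℕ} (hn : 5 ≤ n)
    (S : Set (HeightOneSpectrum (𝓞 K))) (hS : S.Finite) :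
    ∃ B : ℕ, ∀ l : List K[X], l ≠ [] → (∀ f ∈ l, 2 ≤ f.natDegree) →
      (∀ v : HeightOneSpectrum (𝓞 K), v ∉ S → SepType (v.valuation K) n {f | f ∈ l}) →
      (∀ (x : K) (e m : ℕ), Odd m → Function.minimalPeriod (compL l) x = 2 ^ e * m → m ≤ B) ∧
      {x : K | Odd (Function.minimalPeriod (compL l) x)}.encard ≤
        ((((l.map natDegree).prod) ^ B : ℕ) : ℕ∞) ∧
      (6 ≤ n → Even n → (∀ x : K, Function.minimalPeriod (compL l) x ≤ B) ∧
        {x : K | x ∈ Function.periodicPts (compL l)}.encard ≤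
          ((((l.map natDegree).prod) ^ B : ℕ) : ℕ∞)) := by
  obtain ⟨B0, hB0⟩ := oddpart_sep K hn S hS
  obtain ⟨B1, hB1⟩ : ∃ B : ℕ, 6 ≤ n → Even n → ∀ f : ℕ → K[X],
      (∀ v : HeightOneSpectrum (𝓞 K), v ∉ S → SepType (v.valuation K) n (Set.range f)) →
      ∀ (ℓ : ℕ) (a : ℕ → K) (k : ℕ), IsCycL f ℓ a k → k ≤ B := by
    by_cases h : 6 ≤ n ∧ Even n
    · obtain ⟨B, hB⟩ := all_sep K h.1 h.2 S hS
      exact ⟨B, fun _ _ => hB⟩
    · exact ⟨0, fun h1 h2 => absurd ⟨h1, h2⟩ h⟩
  refine ⟨2 * (B0 + B1), fun l hl hdeg hp => ?_⟩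
  have hp' : ∀ v : HeightOneSpectrum (𝓞 K), v ∉ S →
      SepType (v.valuation K) n (Set.range (ListSeq.letter 0 l)) := by
    intro v hv
    obtain ⟨γ, δ, h1, h2, h3, h4⟩ := hp v hv
    refine ⟨γ, δ, h1, h2, h3, ?_⟩
    rintro f ⟨i, rfl⟩
    exact h4 _ (ListSeq.letter_mem 0 hl i)
  have hodd : ∀ (x : K) (e m : ℕ), Odd m →
      Function.minimalPeriod (compL l) x = 2 ^ e * m → m ≤ B0 := by
    intro x e m hm hx
    exact hB0 _ hp' _ _ e m hm (isCycL_comp hl x (Nat.mul_pos (by positivity) hm.pos) hx)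
  have hall : 6 ≤ n → Even n → ∀ x : K, Function.minimalPeriod (compL l) x ≤ B1 := by
    intro h6 hev x
    rcases Nat.eq_zero_or_pos (Function.minimalPeriod (compL l) x) with h | h
    · rw [h]
      exact Nat.zero_le _
    · exact hB1 h6 hev _ hp' _ _ _ (isCycL_comp hl x h rfl)
  refine ⟨fun x e m hm hx => ?_, ?_, fun h6 hev => ⟨fun x => ?_, ?_⟩⟩
  · have := hodd x e m hm hx
    omega
  · refine CountAux.card_of_period l hdeg hl (B0 + B1) _ ?_
    intro x hx
    have hx' : Odd (Function.minimalPeriod (compL l) x) := hx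
    have h1 := hodd x 0 _ hx' (by rw [pow_zero, one_mul])
    exact ⟨hx'.pos, show Function.minimalPeriod (compL l) x ≤ B0 + B1 by omega⟩
  · have := hall h6 hev x
    omega
  · refine CountAux.card_of_period l hdeg hl (B0 + B1) _ ?_
    intro x hx
    have hx' : x ∈ Function.periodicPts (compL l) := hx
    have h1 := hall h6 hev x
    exact ⟨Function.minimalPeriod_pos_of_mem_periodicPts hx',
      show Function.minimalPeriod (compL l) x ≤ B0 + B1 by omega⟩

end UBV2
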