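import Pool.Agent.UBC.FermatGap

/-!
# Gap property for `t` an `n`-th power and `1 - t` a square, `n ≥ 6` even

In an extension `t = z ^ n`, and the `n` factors `1 - ζ ^ i z` of `1 - t` have even valuations
outside `n` where `z` is integral.
-/

set_option autoImplicit false

universe u

namespace UBV2

open UBC Height NumberField IsDedekindDomain Polynomial WithZero

/-- one factor of `1 - y ^ n` has even valuation if the product has even valuation -/
lemma val_factor' {L : Type*} [Field L] (v : Valuation L ℤᵐ⁰) {n : ℕ} (hn : 2 ≤ n)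
    (hvn : v (n : L) = 1) {y : L} {δ : ℤᵐ⁰} (h : v (1 - y ^ n) = δ ^ 2) (hy : v y ≤ 1) :
    ∃ γ : ℤᵐ⁰, v (1 - y) = γ ^ 2 := by
  have h1 : v (1 - y) ≤ 1 := (Valuation.map_sub v _ _).trans (max_le (by simp) hy)
  rcases h1.eq_or_lt with h2 | h2
  · exact ⟨1, by rw [h2, one_pow]⟩
  · have h3 := PowCyc.Loc_close v hn hvn (x := 1) (y := y) (γ := 1) (by simp) one_ne_zero h2
    have h4 := PowCyc.G_mul n (1 : L) y
    rw [one_pow] at h4
    have h5 := congrArg v h4
    rw [map_mul, h3, one_pow, one_mul, h] at h5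
    exact ⟨δ, h5⟩

/-- Mixed case: `t` is an `n`-th power and `1 - t` is a square, up to finitely many classes. -/
theorem exists_gap_mixed (K : Type u) [Field K] [NumberField K] {n : ℕ} (hn : 6 ≤ n)
    (hev : Even n) (S : Set (HeightOneSpectrum (𝓞 K))) (hS : S.Finite) :
    ∃ (L : Type u) (_ : Field L) (_ : NumberField L) (_ : Algebra K L),
      Gap (fun t : K => logHeight₁ (algebraMap K L t))
        {t : K | t ≠ 1 ∧ Sel n S t ∧ Sel 2 S (1 - t)} := by
  have hn0 : 0 < n := by omega
  obtain ⟨m, hm⟩ := hev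
  have hm' : n = 2 * m := by omega
  obtain ⟨L, _, _, _, hL1, hL2⟩ := exists_ext K n hn0 S hS (cyclotomic n K)
    (cyclotomic_ne_zero n K)
  obtain ⟨ζ, hζ⟩ := hL1 (cyclotomic n K) dvd_rfl (by
    rw [natDegree_cyclotomic]
    exact (Nat.totient_pos.mpr hn0).ne')
  have hζp : IsPrimitiveRoot ζ n := by
    have : NeZero (n : L) := ⟨by exact_mod_cast hn0.ne'⟩
    rw [← isRoot_cyclotomic_iff, IsRoot.def, ← map_cyclotomic n (algebraMap K L)]
    rw [eval_map_algebraMap]
    exact hζ
  have hζn : ζ ^ n = 1 := hζp.pow_eq_one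
  have hζ0 : ζ ≠ 0 := hζp.ne_zero hn0.ne'
  -- the exceptional places of `L` and the extension `L'`
  have hnL : ((n : ℕ) : L) ≠ 0 := by exact_mod_cast hn0.ne'
  have hS' := finite_nonunit L ((n : ℕ) : L) hnL
  set S' : Set (HeightOneSpectrum (𝓞 L)) := {v | v.valuation L ((n : ℕ) : L) ≠ 1} with hS'def
  set e' : Fin 5 → L := fun j => (ζ ^ (j : ℕ))⁻¹ with he'def
  have he' : Function.Injective e' := by
    intro i j hij
    simp only [he'def] at hij
    have h1 := inv_injective hij
    have h2 := hζp.pow_inj (by omega) (by omega) h1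
    exact Fin.ext h2
  obtain ⟨L', _, _, _, hgap⟩ := exists_gap_sq L S' hS' e' he'
  let φKL' : K →+* L' := (algebraMap L L').comp (algebraMap K L)
  let _ : Algebra K L' := φKL'.toAlgebra
  have hKL' : ∀ a : K, algebraMap K L' a = algebraMap L L' (algebraMap K L a) := fun a => rfl
  refine ⟨L', inferInstance, inferInstance, inferInstance, ?_⟩
  -- the map `t ↦ z`
  have hchoice : ∀ t : K, ∃ z : L, Sel n S t → z ^ n = algebraMap K L t := by
    intro t
    by_cases h : Sel n S t
    · obtain ⟨z, hz⟩ := hL2 _ h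
      exact ⟨z, fun _ => hz⟩
    · exact ⟨0, fun h' => absurd h' h⟩
  choose Y hY using hchoice
  have hnR : (0 : ℝ) < n := by exact_mod_cast hn0
  -- comparison of heights
  have hcmp : ∀ t : K, Sel n S t →
      (n : ℝ) * logHeight₁ (algebraMap L L' (Y t)) = logHeight₁ (algebraMap K L' t) := by
    intro t ht
    rw [hKL', ← hY t ht, map_pow, logHeight₁_pow]
  refine Gap.transfer hgap Y 1 (1 / n) (1 / n) 0 (by positivity) ?_ ?_ ?_ ?_
  · -- `Y t` is in the target set
    rintro t ⟨ht1, htn, ht2⟩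
    have hz := hY t htn
    set y := Y t with hy
    -- `1 - t` has even valuations
    have hsq : ∀ v : HeightOneSpectrum (𝓞 L), ∃ δ : ℤᵐ⁰, v.valuation L (1 - y ^ n) = δ ^ 2 := by
      intro v
      have h1 : Sel n S ((1 - t) ^ m) := by
        refine ⟨pow_ne_zero _ ht2.1, fun w hw => ?_⟩
        obtain ⟨γ, hγ⟩ := ht2.2 w hw
        exact ⟨γ, by rw [map_pow, hγ, ← pow_mul, hm']⟩
      obtain ⟨w, hw⟩ := hL2 _ h1
      refine ⟨v.valuation L w, ?_⟩
      have h2 : (1 - y ^ n) ^ m = (w ^ 2) ^ m := by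
        rw [hz, ← map_one (algebraMap K L), ← map_sub, ← map_pow, ← hw, ← pow_mul, hm']
      have h3 := congrArg (v.valuation L) h2
      rw [map_pow, map_pow, map_pow] at h3
      exact (pow_left_inj₀ zero_le zero_le (by omega)).1 h3
    have hpow : ∀ i : ℕ, 1 - (ζ ^ i * y) ^ n = 1 - y ^ n := by
      intro i
      rw [mul_pow, ← pow_mul, mul_comm i n, pow_mul, hζn, one_pow, one_mul]
    have hfac : ∀ i : ℕ, 1 - ζ ^ i * y ≠ 0 := by
      intro i h
      have h1 := hpow i
      rw [← sub_eq_zero.mp h, one_pow, sub_self, hz, ← map_one (algebraMap K L), ← map_sub] at h1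
      exact ht2.1 ((algebraMap K L).injective (by rw [← h1, map_zero]))
    have hdiff : ∀ i : ℕ, y - (ζ ^ i)⁻¹ = -(ζ ^ i)⁻¹ * (1 - ζ ^ i * y) := by
      intro i
      have : ζ ^ i ≠ 0 := pow_ne_zero _ hζ0
      field_simp
      ring
    have hne : ∀ i : ℕ, y - (ζ ^ i)⁻¹ ≠ 0 := by
      intro i
      rw [hdiff i]
      exact mul_ne_zero (neg_ne_zero.mpr (inv_ne_zero (pow_ne_zero _ hζ0))) (hfac i)
    intro j
    refine ⟨fun h => hne j (by rw [h]; simp [he'def]), ?_, fun v hv => ?_⟩
    · exact div_ne_zero (hne j) (hne (0 : Fin 5))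
    · have hvn : v.valuation L ((n : ℕ) : L) = 1 := by
        by_contra h
        exact hv h
      have hvζ : v.valuation L ζ = 1 := by
        have h1 := congrArg (v.valuation L) hζn
        rw [map_pow, map_one] at h1
        exact (pow_eq_one_iff_of_nonneg zero_le hn0.ne').mp h1
      have hvt : ∀ i : ℕ, v.valuation L (ζ ^ i) = 1 := by
        intro i
        rw [map_pow, hvζ, one_pow]
      have hvd : ∀ i : ℕ, v.valuation L (y - (ζ ^ i)⁻¹) = v.valuation L (1 - ζ ^ i * y) := by
        intro i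
        rw [hdiff i, map_mul, Valuation.map_neg, map_inv₀, hvt i, inv_one, one_mul]
      have hratio : v.valuation L ((y - e' j) / (y - e' 0)) =
          v.valuation L (1 - ζ ^ (j : ℕ) * y) /
            v.valuation L (1 - ζ ^ ((0 : Fin 5) : ℕ) * y) := by
        rw [map_div₀]
        simp only [he'def]
        rw [hvd, hvd]
      rw [hratio]
      rcases le_or_gt (v.valuation L y) 1 with hy1 | hy1
      · have hsq' : ∀ i : ℕ, ∃ γ : ℤᵐ⁰, v.valuation L (1 - ζ ^ i * y) = γ ^ 2 := by
          intro i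
          obtain ⟨δ, hδ⟩ := hsq v
          refine val_factor' (v.valuation L) (by omega) hvn (δ := δ) ?_ ?_
          · rw [hpow i, hδ]
          · rw [map_mul, hvt i, one_mul]; exact hy1
        obtain ⟨γ, hγ⟩ := hsq' j
        obtain ⟨γ', hγ'⟩ := hsq' ((0 : Fin 5) : ℕ)
        exact ⟨γ / γ', by rw [hγ, hγ', div_pow]⟩
      · have hbig : ∀ i : ℕ, v.valuation L (1 - ζ ^ i * y) = v.valuation L y := by
          intro i
          rw [FermatGapAux.val_eq_of_big, map_mul, hvt i, one_mul]
          rw [map_mul, hvt i, one_mul]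
          exact hy1
        refine ⟨1, ?_⟩
        rw [hbig, hbig, div_self (zero_lt_one.trans hy1).ne', one_pow]
  · rintro t ⟨-, htn, -⟩
    have h1 := hcmp t htn
    rw [sub_zero, ← h1]
    field_simp
    exact le_refl _
  · rintro t ⟨-, htn, -⟩
    have h1 := hcmp t htn
    rw [add_zero, ← h1]
    field_simp
    exact le_refl _
  · -- fibres
    intro A w hA
    refine Finset.card_le_one.2 fun a ha b hb => ?_
    obtain ⟨⟨-, han, -⟩, haw⟩ := hA a ha
    obtain ⟨⟨-, hbn, -⟩, hbw⟩ := hA b hb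
    apply (algebraMap K L).injective
    rw [← hY a han, ← hY b hbn, haw, hbw]

end UBV2
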